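import Pool.Agent.H73.CBD.Stmts

/-! Row HFD of the board cbd (MP_e1af46): the derivative of `H`. -/

set_option autoImplicit false

open Set Filter Topology

namespace Pool.CBD

theorem HFD_thm (hS : SUMStmt) (hN : NDRStmt) (hP : HPRStmt) (hA : ALGStmt) (hB : ALHStmt) :
    HFDStmt := by
  obtain ⟨hN1, hN2⟩ := hN
  obtain ⟨hS1, -⟩ := hS
  obtain ⟨-, -, hP3⟩ := hP
  obtain ⟨-, -, -, -, -, -, hA7, -, -⟩ := hA
  obtain ⟨-, -, hB3, -, -⟩ := hB
  intro z
  by_cases hz : z = 0
  · subst hz
    have h0 : H 0 = 0 := by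
      have h1 := (hP3 0).1
      have h2 := (hP3 0).2
      have h3 := (hB3 0).2
      have h4 := (hB3 0).1
      simp only [norm_zero] at h3 h4
      nlinarith
    have hd : HasFDerivAt H (0 : V →L[ℝ] ℝ) 0 := by
      rw [hasFDerivAt_iff_isLittleO_nhds_zero]
      have h1 : (fun h : V => H (0 + h) - H 0 - (0 : V →L[ℝ] ℝ) h) =O[𝓝 0]
          fun h : V => ‖h‖ ^ 2 := by
        refine Asymptotics.IsBigO.of_bound 4 (Filter.Eventually.of_forall fun h => ?_)
        rw [zero_add, h0, sub_zero, ContinuousLinearMap.zero_apply, sub_zero]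
        have h2 := (hP3 h).2
        have h3 := (hB3 h).2
        have h4 := (hP3 h).1
        have h5 := (hB3 h).1
        have h6 : 0 ≤ ‖h‖ ^ 2 := by positivity
        have h7 : 0 ≤ H h := by linarith
        rw [Real.norm_of_nonneg h7, Real.norm_of_nonneg h6]
        linarith
      exact h1.trans_isLittleO (Asymptotics.isLittleO_norm_pow_id one_lt_two)
    refine ⟨hd.differentiableAt, fun v => ?_⟩
    rw [hd.fderiv]
    simp [P]
  · have hNd : DifferentiableAt ℝ N z := hN1.contDiffAt.differentiableAt (by norm_num)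
    obtain ⟨hSd, hSv⟩ := hS1 z hz
    have hEd : DifferentiableAt ℝ (fun y => Real.exp (S y)) z := hSd.exp
    have hH : H = fun y => N y * Real.exp (S y) := rfl
    have hNz : N z ≠ 0 := (hA7 z hz).ne'
    refine ⟨?_, fun v => ?_⟩
    · rw [hH]
      exact hNd.mul hEd
    · rw [hH, fderiv_fun_mul hNd hEd, fderiv_exp hSd]
      simp only [ContinuousLinearMap.add_apply, ContinuousLinearMap.smul_apply, smul_eq_mul]
      rw [hN2 z v, hSv v]
      field_simp
      ring

end Pool.CBD
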